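import Pool.Agent.Helper48.OD.St

/-! Project OD (MP_b3ce06_al), module ROV. -/

set_option autoImplicit false

namespace Pool.Agent.Helper84.OD

open Pool.Agent.Helper43.GD Pool.Agent.Helper48.OD

private lemma pow_two_h {l k h r : ℕ} {L : Type} [CommRing L] {x : Lˣ} (R : RO l k h r L x) :
    x ^ (2 * h) = 1 := by
  apply Units.ext
  rw [Units.val_pow_eq_pow_val, mul_comm, pow_mul, R.xh, Units.val_one]
  ring

private lemma v_od {l k h r : ℕ} {L : Type} [CommRing L] {x : Lˣ} (R : RO l k h r L x) :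
    (x ^ k) ^ r = 1 := by
  obtain ⟨m, hm⟩ := R.rk
  rw [← pow_mul, mul_comm k r, hm, pow_mul, pow_two_h R, one_pow]

private lemma one_sub_v {l k h r : ℕ} {L : Type} [CommRing L] {x : Lˣ} (R : RO l k h r L x) :
    1 - ((x ^ k : Lˣ) : L) = ((x ^ l : Lˣ) : L) := by
  rw [Units.val_pow_eq_pow_val, Units.val_pow_eq_pow_val]
  linear_combination -R.tri

theorem hROV (h1 : StGNV) : StROV := by
  constructor
  · intro l k h r L A _ _ Q x R hx
    refine ⟨R.fin, ⟨Q.U.pow_mem hx k, ?_⟩, ?_, ⟨r, R.ro, v_od R⟩⟩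
    · rw [one_sub_v R]
      exact in_val Q (Q.U.pow_mem hx l)
    · exact h1 l k h L x R.fin R.gc R.gn R.xh R.tri
  · intro l k h r L _ x R
    refine ⟨R.fin, ?_⟩
    have hod : Od (x ^ k) := ⟨r, R.ro, v_od R⟩
    have hu1 : IsUnit (1 - ((x ^ k : Lˣ) : L)) := by
      rw [one_sub_v R]
      exact (x ^ l).isUnit
    have hu2 : IsUnit (1 + ((x ^ k : Lˣ) : L)) := hod.isUnit_add hu1
    have hd : (x : L) ^ 2 - 1 ∣ ((x : L) ^ 2) ^ k - 1 ^ k := sub_dvd_pow_sub_pow _ _ k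
    refine isUnit_of_dvd_unit hd ?_
    have he : ((x : L) ^ 2) ^ k - 1 ^ k =
        -((1 - ((x ^ k : Lˣ) : L)) * (1 + ((x ^ k : Lˣ) : L))) := by
      rw [Units.val_pow_eq_pow_val]
      ring
    rw [he]
    exact (hu1.mul hu2).neg

end Pool.Agent.Helper84.OD
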