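import Pool.Agent.Helper95.OD.St

/-!
# OD module CU: the number of sets containing two given vertices
-/

set_option autoImplicit false

namespace Pool.Agent.Helper84.OD

open Pool.Agent.Helper95.OD Finset
open scoped Classical

theorem hCU : CU := by
  intro m r s u v huv
  by_cases hs : s < 2
  · have h0 : (((univ : Finset (Vx m r)).powersetCard s).filter
        (fun X => u ∈ X ∧ v ∈ X)) = ∅ := by
      apply Finset.filter_eq_empty_iff.2
      intro X hX hc
      rw [Finset.mem_powersetCard] at hX
      have h2 : ({u, v} : Finset (Vx m r)).card ≤ X.card := by
        apply Finset.card_le_card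
        intro z hz
        rw [Finset.mem_insert, Finset.mem_singleton] at hz
        rcases hz with rfl | rfl
        · exact hc.1
        · exact hc.2
      rw [Finset.card_pair huv, hX.2] at h2
      omega
    rw [h0, Finset.card_empty]
    exact Nat.zero_le _
  · push Not at hs
    have hcard : Fintype.card (Vx m r) = m * r := by
      rw [Fintype.card_prod, Fintype.card_fin, Fintype.card_fin]
    have h1 : (((univ : Finset (Vx m r)).powersetCard s).filter
        (fun X => u ∈ X ∧ v ∈ X)).card ≤
        ((univ : Finset (Vx m r)).powersetCard (s - 2)).card := by
      apply Finset.card_le_card_of_injOn (fun X => X \ {u, v})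
      · intro X hX
        rw [Finset.mem_coe, Finset.mem_filter, Finset.mem_powersetCard] at hX
        rw [Finset.mem_coe, Finset.mem_powersetCard]
        refine ⟨Finset.subset_univ _, ?_⟩
        have hsub : ({u, v} : Finset (Vx m r)) ⊆ X := by
          intro z hz
          rw [Finset.mem_insert, Finset.mem_singleton] at hz
          rcases hz with rfl | rfl
          · exact hX.2.1
          · exact hX.2.2
        rw [Finset.card_sdiff_of_subset hsub, Finset.card_pair huv, hX.1.2]
      · intro X hX Y hY hXY
        rw [Finset.mem_coe, Finset.mem_filter] at hX hY
        have e1 : X = X \ {u, v} ∪ {u, v} := by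
          rw [Finset.sdiff_union_of_subset]
          intro z hz
          rw [Finset.mem_insert, Finset.mem_singleton] at hz
          rcases hz with rfl | rfl
          · exact hX.2.1
          · exact hX.2.2
        have e2 : Y = Y \ {u, v} ∪ {u, v} := by
          rw [Finset.sdiff_union_of_subset]
          intro z hz
          rw [Finset.mem_insert, Finset.mem_singleton] at hz
          rcases hz with rfl | rfl
          · exact hY.2.1
          · exact hY.2.2
        have e3 : X \ {u, v} = Y \ {u, v} := hXY
        rw [e1, e2, e3]
    refine h1.trans ?_
    rw [Finset.card_powersetCard, Finset.card_univ, hcard]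
    exact Nat.choose_le_pow _ _

end Pool.Agent.Helper84.OD
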